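import Pool.Agent.R461.ZF.Defs
import Pool.Agent.R461.UT.Defs

/-!
# The poles of the `L`-functions of the products with the curves of a family: definitions

`K` is a number field.  `cone` (`q - 1` times the number of points over a finite field with `q` elements)
and `IsFrobenius` are defined in `Pool.Agent.W353.EF.Defs`, `Coh`, `Mot`, `IsL` and `weight` in
`Pool.Agent.R461.UR.Defs`, `PairingSize` in `Pool.Agent.R461.ZF.Defs`, and `PoleOrder` in
`Pool.Agent.R461.UT.Defs`.
-/

set_option autoImplicit false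

namespace Pool.Agent.R461.AP

open NumberField IsDedekindDomain Filter Topology Polynomial
open Pool.Agent.W353.EF (IsFrobenius cone)
open Pool.Agent.W353.EH (size)
open Pool.Agent.R461.UR (Coh Mot IsL weight)
open Pool.Agent.R461.ZF (PairingSize)
open Pool.Agent.R461.UT (PoleOrder)

/-- A smooth projective variety `X` of dimension `d` over `K`, given by a set of homogeneous polynomials in
`l` variables, with the Betti numbers `N i`, and good reduction outside the finite set `R`. -/
structure Variety (K : Type) [Field K] [NumberField K] where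
  l : ℕ
  X : Set (MvPolynomial (Fin l) (𝓞 K))
  d : ℕ
  N : ℕ → ℕ
  R : Finset (HeightOneSpectrum (𝓞 K))
  frob : ∀ v, v ∉ R → ∀ i, i ≤ 2 * d → ∃ α : Fin (N i) → ℂ, IsFrobenius X d i v α

section
variable {K : Type} [Field K] [NumberField K]

/-- `Y` is a geometrically connected curve: for all primes `v` of good reduction the Frobenius has the
single eigenvalue `1` on `H⁰(Y)` and the single eigenvalue `q_v` on `H²(Y)`. -/
def IsCurve (Y : Variety K) : Prop :=
  Y.d = 1 ∧ ∀ v, v ∉ Y.R → IsFrobenius Y.X Y.d 0 v (fun _ : Fin 1 => (1 : ℂ)) ∧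
    IsFrobenius Y.X Y.d 2 v (fun _ : Fin 1 => (Ideal.absNorm v.asIdeal : ℂ))

/-- `Z` is the product of `X` and `Y`, in any embedding into a projective space: its dimension is the
sum of the dimensions, and over all finite extensions of the residue fields of the primes `v ∉ R_Z`
the number of the points of `Z` is the product of the numbers of the points of `X` and `Y`. -/
def IsProduct (Z X Y : Variety K) : Prop :=
  Z.d = X.d + Y.d ∧ ∀ v, v ∉ Z.R → ∀ (κ : Type) [Field κ] [Finite κ] (φ : 𝓞 K →+* κ),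
    RingHom.ker φ = v.asIdeal → (Nat.card κ - 1) * cone Z.X φ = cone X.X φ * cone Y.X φ

/-- The cohomology group `H^i(X)`, `0 ≤ i ≤ 2d`. -/
def Variety.coh (X : Variety K) (i : ℕ) (hi : i ≤ 2 * X.d) : Coh K where
  l := X.l
  X := X.X
  d := X.d
  i := i
  N := X.N i
  le := hi

/-- `log |L(H^i(X), i/2 + 1 + ε)| / log(1/ε)` for the Euler product with the factors `B v`. -/
noncomputable def poleSize (X : Variety K) (i : ℕ) (hi : i ≤ 2 * X.d)
    (B : HeightOneSpectrum (𝓞 K) → ℂ[X]) (ε : ℝ) : ℝ :=
  size (weight (X.coh i hi).mot.H) 0 B ε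

/-- The function `L(H^i(X), s)` has a pole of order `r` at `s = i/2 + 1`, in the sense of the problem:
`ε^r L(i/2 + 1 + ε)` has a finite limit different from `0` as `ε → 0+`. -/
def HasPole (X : Variety K) (i : ℕ) (hi : i ≤ 2 * X.d) (r : ℤ) : Prop :=
  ∃ B : HeightOneSpectrum (𝓞 K) → ℂ[X], IsL (X.coh i hi).mot 0 B ∧
    PoleOrder (weight (X.coh i hi).mot.H) 0 B r

/-- `(Y b)` is a family of curves such that the functions `L(H¹(Y_b) ⊗ H¹(Y_b'), s)` are of size `0` at
`s = 2` for `b ≠ b'`, and of size `e b > 0` for `b = b'`: this is the case if they have a pole of order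
`e b` for `b = b'`, and neither a pole nor a zero for `b ≠ b'`. -/
def IsCurveFamily {β : Type} (Y : β → Variety K) (e : β → ℕ) : Prop :=
  ∃ h : ∀ b, 1 ≤ 2 * (Y b).d, (∀ b, IsCurve (Y b)) ∧
    (∀ b, 0 < e b ∧ PairingSize ((Y b).coh 1 (h b)).mot ((Y b).coh 1 (h b)).mot 0 (e b)) ∧
    ∀ b b', b ≠ b' → PairingSize ((Y b).coh 1 (h b)).mot ((Y b').coh 1 (h b')).mot 0 0

/-- `H^{2m-1}(X)` contains the direct sum of the `n b` copies of `H¹(Y b)(1 - m)`: outside the finite
set `R'` of primes, the products of `q_v^{m-1}` with the eigenvalues of the Frobenius on `H¹(Y b)`, each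
taken `n b` times, are among the eigenvalues on `H^{2m-1}(X)`. -/
def Contains (X : Variety K) (m : ℕ) {β : Type} (Y : β → Variety K) (n : β →₀ ℕ)
    (R' : Finset (HeightOneSpectrum (𝓞 K))) : Prop :=
  ∀ v, v ∉ R' → ∃ (α : Fin (X.N (2 * m - 1)) → ℂ) (γ : ∀ b, Fin ((Y b).N 1) → ℂ),
    IsFrobenius X.X X.d (2 * m - 1) v α ∧
    (∀ b ∈ n.support, IsFrobenius (Y b).X (Y b).d 1 v (γ b)) ∧
    ∑ b ∈ n.support, n b • Finset.univ.val.map
      (fun j => (Ideal.absNorm v.asIdeal : ℂ) ^ (m - 1) * γ b j) ≤ Finset.univ.val.map α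

/-- The dimension of the complement of the copies of the `H¹(Y b)(1 - m)` in `H^{2m-1}(X)`. -/
noncomputable def rest (X : Variety K) (m : ℕ) {β : Type} (Y : β → Variety K) (n : β →₀ ℕ) : ℝ :=
  X.N (2 * m - 1) - ∑ b ∈ n.support, (n b : ℝ) * (Y b).N 1

end

end Pool.Agent.R461.AP
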