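import Pool.Agent.R461.TB.Main
import Pool.Agent.R461.AP.Defs

/-! The formula of Künneth for the product with a curve, from the numbers of points. -/

set_option autoImplicit false

namespace Pool.Agent.R461.AP

open Complex Filter Topology NumberField IsDedekindDomain
open Pool.Agent.W353.EF (IsFrobenius cone)
open Pool.Agent.W353.SP
open Pool.Agent.W353.PV (mult_unique exists_ext one_lt_norm tF)
open Pool.Agent.R461.TB (conv tens tens_pow tens_sum mem_tens pow_sub_ne sum_univ qq qq_pos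
  trace_gen)

section
variable {K : Type} [Field K] [NumberField K]

/-- the system of all eigenvalues of a variety -/
structure Sys (V : Variety K) (v : HeightOneSpectrum (𝓞 K)) (β : ℕ → Multiset ℂ) : Prop where
  norm : ∀ k, ∀ z ∈ β k, ‖z‖ = (Ideal.absNorm v.asIdeal : ℝ) ^ ((k : ℝ) / 2)
  count : ∀ (κ : Type) [Field κ] [Finite κ] (φ : 𝓞 K →+* κ) (e : ℕ), RingHom.ker φ = v.asIdeal →
      Nat.card κ = Ideal.absNorm v.asIdeal ^ e →
      (cone V.X φ : ℂ) = ((Ideal.absNorm v.asIdeal : ℂ) ^ e - 1) *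
          ∑ k ∈ Finset.range (2 * V.d + 1), (-1 : ℂ) ^ k * ((β k).map (fun z => z ^ e)).sum

theorem exists_sys (V : Variety K) {v : HeightOneSpectrum (𝓞 K)} {i N : ℕ} {α : Fin N → ℂ}
    (h : IsFrobenius V.X V.d i v α) : ∃ β, Sys V v β ∧ β i = Finset.univ.val.map α := by
  obtain ⟨β, h1, h2, h3⟩ := h
  refine ⟨β, ⟨h2, fun κ _ _ φ e hk hc => ?_⟩, h1⟩
  refine Eq.trans (congrArg (fun ψ : 𝓞 K →+* κ => ((cone V.X ψ : ℕ) : ℂ)) ?_) (h3 κ φ e hk hc)
  refine RingHom.ext fun x => ?_
  rw [RingHom.comp_apply]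
  congr 1

theorem Sys.unique {V : Variety K} {v : HeightOneSpectrum (𝓞 K)} {β β' : ℕ → Multiset ℂ}
    (h : Sys V v β) (h' : Sys V v β') {i : ℕ} (hi : i ≤ 2 * V.d) : β i = β' i := by
  refine mult_unique (D := 2 * V.d + 1) (one_lt_norm v) h.norm h'.norm (fun e he => ?_) (by omega)
  obtain ⟨κ, _, _, φ, hk, hc⟩ := exists_ext v e he
  have e1 := h.count κ φ e hk hc
  rw [h'.count κ φ e hk hc] at e1
  exact (mul_left_cancel₀ (pow_sub_ne v he) e1).symm

/-- the normalised trace on `H^i(V)` -/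
noncomputable def nt (V : Variety K) (i : ℕ) (v : HeightOneSpectrum (𝓞 K)) : ℝ :=
  tF V.X V.d i (V.N i) K v

theorem exists_all (V : Variety K) {v : HeightOneSpectrum (𝓞 K)} (hv : v ∉ V.R) :
    ∃ β, Sys V v β ∧ ∀ i, i ≤ 2 * V.d →
      (β i).sum = ((qq v ^ ((i : ℝ) / 2) * nt V i v : ℝ) : ℂ) := by
  obtain ⟨α₀, h0⟩ := V.frob v hv 0 (by omega)
  obtain ⟨β, s0, -⟩ := exists_sys V h0
  refine ⟨β, s0, fun i hi => ?_⟩
  obtain ⟨α, h1⟩ := V.frob v hv i hi
  obtain ⟨β', s1, g1⟩ := exists_sys V h1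
  rw [s0.unique s1 hi, g1, sum_univ]
  exact trace_gen hi h1

/-- **The formula of Künneth.** -/
theorem kunneth {Z X Y : Variety K} (h : IsProduct Z X Y) {v : HeightOneSpectrum (𝓞 K)}
    {β γ ζ : ℕ → Multiset ℂ} (s : Sys X v β) (t : Sys Y v γ) (u : Sys Z v ζ)
    (hZ : v ∉ Z.R) {k : ℕ} (hk : k ≤ 2 * Z.d) :
    (ζ k).sum = ∑ p ∈ Finset.HasAntidiagonal.antidiagonal k,
      (if p.1 ≤ 2 * X.d then (β p.1).sum else 0) * (if p.2 ≤ 2 * Y.d then (γ p.2).sum else 0) := by
  classical
  obtain ⟨hd, hc⟩ := h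
  set β' : ℕ → Multiset ℂ := fun k => if k ≤ 2 * X.d then β k else 0 with hβ'
  set γ' : ℕ → Multiset ℂ := fun k => if k ≤ 2 * Y.d then γ k else 0 with hγ'
  set G : ℕ → Multiset ℂ := fun k =>
    (Finset.HasAntidiagonal.antidiagonal k).val.bind fun p => tens (β' p.1) (γ' p.2) with hG
  have hβ'n : ∀ k, ∀ z ∈ β' k, ‖z‖ = (Ideal.absNorm v.asIdeal : ℝ) ^ ((k : ℝ) / 2) := by
    intro k z hz
    rw [hβ'] at hz
    simp only at hz
    split_ifs at hz
    · exact s.norm k z hz
    · exact absurd hz (Multiset.notMem_zero z)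
  have hγ'n : ∀ k, ∀ z ∈ γ' k, ‖z‖ = (Ideal.absNorm v.asIdeal : ℝ) ^ ((k : ℝ) / 2) := by
    intro k z hz
    rw [hγ'] at hz
    simp only at hz
    split_ifs at hz
    · exact t.norm k z hz
    · exact absurd hz (Multiset.notMem_zero z)
  have hq : (0 : ℝ) < (Ideal.absNorm v.asIdeal : ℝ) := by
    have := one_lt_norm v
    linarith
  have hGp : ∀ k e, ((G k).map fun z => z ^ e).sum =
      ∑ p ∈ Finset.HasAntidiagonal.antidiagonal k,
      ((β' p.1).map fun z => z ^ e).sum * ((γ' p.2).map fun z => z ^ e).sum := by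
    intro k e
    rw [hG]
    simp only
    rw [Multiset.map_bind, Multiset.sum_bind]
    simp only [tens_pow]
    rfl
  have hGS : Sys Z v G := by
    refine ⟨fun k z hz => ?_, fun κ _ _ φ e hk hcard => ?_⟩
    · rw [hG] at hz
      simp only at hz
      obtain ⟨p, hp, hz⟩ := Multiset.mem_bind.1 hz
      have hp' : p.1 + p.2 = k := Finset.HasAntidiagonal.mem_antidiagonal.1 hp
      obtain ⟨x, hx, y, hy, rfl⟩ := mem_tens hz
      rw [norm_mul, hβ'n _ x hx, hγ'n _ y hy, ← Real.rpow_add hq]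
      congr 1
      have : ((p.1 : ℝ) + (p.2 : ℝ)) = k := by exact_mod_cast hp'
      linarith
    · rcases Nat.eq_zero_or_pos e with rfl | he
      · -- a field with one element
        exfalso
        rw [pow_zero] at hcard
        have : 1 < Nat.card κ := Finite.one_lt_card
        omega
      have e1 := hc v hZ κ φ hk
      have e2 := s.count κ φ e hk hcard
      have e3 := t.count κ φ e hk hcard
      have hqe := pow_sub_ne v he
      have hcast : ((Nat.card κ - 1 : ℕ) : ℂ) = (Ideal.absNorm v.asIdeal : ℂ) ^ e - 1 := by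
        have h5 : 1 ≤ Nat.card κ := Nat.card_pos
        rw [Nat.cast_sub h5, hcard]
        push_cast
        ring
      have e4 : ((Ideal.absNorm v.asIdeal : ℂ) ^ e - 1) * (cone Z.X φ : ℂ) =
          (cone X.X φ : ℂ) * (cone Y.X φ : ℂ) := by
        rw [← hcast]
        exact_mod_cast e1
      rw [e2, e3] at e4
      refine mul_left_cancel₀ hqe (e4.trans ?_)
      have e5 : ∑ k ∈ Finset.range (2 * Z.d + 1), (-1 : ℂ) ^ k *
          ((G k).map (fun z => z ^ e)).sum =
          (∑ k ∈ Finset.range (2 * X.d + 1), (-1 : ℂ) ^ k * ((β' k).map (fun z => z ^ e)).sum) *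
          ∑ k ∈ Finset.range (2 * Y.d + 1), (-1 : ℂ) ^ k * ((γ' k).map (fun z => z ^ e)).sum := by
        rw [← conv (A := 2 * X.d + 1) (B := 2 * Y.d + 1) (n := 2 * Z.d + 1) (by omega)
          (fun k => (-1 : ℂ) ^ k * ((β' k).map (fun z => z ^ e)).sum)
          (fun k => (-1 : ℂ) ^ k * ((γ' k).map (fun z => z ^ e)).sum)]
        · refine Finset.sum_congr rfl fun k _ => ?_
          rw [hGp, Finset.mul_sum]
          refine Finset.sum_congr rfl fun p hp => ?_
          rw [← Finset.HasAntidiagonal.mem_antidiagonal.1 hp, pow_add]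
          ring
        · intro i hi
          have : β' i = 0 := by
            rw [hβ']
            simp only
            rw [if_neg (by omega)]
          rw [this, Multiset.map_zero, Multiset.sum_zero, mul_zero]
        · intro i hi
          have : γ' i = 0 := by
            rw [hγ']
            simp only
            rw [if_neg (by omega)]
          rw [this, Multiset.map_zero, Multiset.sum_zero, mul_zero]
      have e6 : ∀ k ∈ Finset.range (2 * X.d + 1), (-1 : ℂ) ^ k *
          ((β' k).map (fun z => z ^ e)).sum = (-1 : ℂ) ^ k * ((β k).map (fun z => z ^ e)).sum := by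
        intro k hk
        rw [Finset.mem_range] at hk
        rw [hβ']
        simp only
        rw [if_pos (by omega)]
      have e7 : ∀ k ∈ Finset.range (2 * Y.d + 1), (-1 : ℂ) ^ k *
          ((γ' k).map (fun z => z ^ e)).sum = (-1 : ℂ) ^ k * ((γ k).map (fun z => z ^ e)).sum := by
        intro k hk
        rw [Finset.mem_range] at hk
        rw [hγ']
        simp only
        rw [if_pos (by omega)]
      rw [e5, Finset.sum_congr rfl e6, Finset.sum_congr rfl e7]
      ring
  rw [u.unique hGS hk]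
  have h5 : (G k).sum = ∑ p ∈ Finset.HasAntidiagonal.antidiagonal k,
      (β' p.1).sum * (γ' p.2).sum := by
    have h6 := hGp k 1
    simpa using h6
  rw [h5]
  refine Finset.sum_congr rfl fun p _ => ?_
  have f1 : ∀ j, (β' j).sum = if j ≤ 2 * X.d then (β j).sum else 0 := by
    intro j
    rw [hβ']
    simp only
    split_ifs
    · rfl
    · exact Multiset.sum_zero
  have f2 : ∀ j, (γ' j).sum = if j ≤ 2 * Y.d then (γ j).sum else 0 := by
    intro j
    rw [hγ']
    simp only
    split_ifs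
    · rfl
    · exact Multiset.sum_zero
  rw [f1, f2]

/-- **The product with a curve.** -/
theorem kunneth_curve {Z X Y : Variety K} (h : IsProduct Z X Y) (hY : IsCurve Y) {m : ℕ}
    (hm : 1 ≤ m) (hmd : m ≤ X.d) {v : HeightOneSpectrum (𝓞 K)}
    (hZ : v ∉ Z.R) (hX : v ∉ X.R) (hYR : v ∉ Y.R) :
    nt Z (2 * m) v = nt X (2 * m) v + nt X (2 * m - 1) v * nt Y 1 v + nt X (2 * m - 2) v := by
  classical
  obtain ⟨β, s, hβ⟩ := exists_all X hX
  obtain ⟨γ, t, hγ⟩ := exists_all Y hYR
  obtain ⟨ζ, u, hζ⟩ := exists_all Z hZ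
  have hYd := hY.1
  have hZd := h.1
  obtain ⟨y0, y2⟩ := hY.2 v hYR
  obtain ⟨γ0, t0, g0⟩ := exists_sys Y y0
  obtain ⟨γ2, t2, g2⟩ := exists_sys Y y2
  have f0 : (γ 0).sum = 1 := by
    rw [t.unique t0 (by omega), g0, sum_univ]
    simp
  have f2 : (γ 2).sum = (qq v : ℂ) := by
    rw [t.unique t2 (by omega), g2, sum_univ]
    unfold qq
    simp
  have f1 := hγ 1 (by omega)
  have hk := kunneth h s t u hZ (k := 2 * m) (by omega)
  -- the sum over the antidiagonal has three terms
  have hsum : ∑ p ∈ Finset.HasAntidiagonal.antidiagonal (2 * m),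
      (if p.1 ≤ 2 * X.d then (β p.1).sum else 0) * (if p.2 ≤ 2 * Y.d then (γ p.2).sum else 0) =
      (β (2 * m)).sum * (γ 0).sum + (β (2 * m - 1)).sum * (γ 1).sum +
        (β (2 * m - 2)).sum * (γ 2).sum := by
    have hsub : ({(2 * m, 0), (2 * m - 1, 1), (2 * m - 2, 2)} : Finset (ℕ × ℕ)) ⊆
        Finset.HasAntidiagonal.antidiagonal (2 * m) := by
      intro p hp
      rw [Finset.HasAntidiagonal.mem_antidiagonal]
      simp only [Finset.mem_insert, Finset.mem_singleton] at hp
      rcases hp with rfl | rfl | rfl <;> simp only <;> omega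
    rw [← Finset.sum_subset hsub]
    · rw [Finset.sum_insert (by simp), Finset.sum_insert (by simp), Finset.sum_singleton]
      rw [if_pos (by omega), if_pos (by omega), if_pos (by omega), if_pos (by omega),
        if_pos (by omega), if_pos (by omega), add_assoc]
    · intro p hp hp'
      rw [Finset.HasAntidiagonal.mem_antidiagonal] at hp
      have h3 : 2 < p.2 := by
        by_contra hcon
        push Not at hcon
        refine hp' ?_
        simp only [Finset.mem_insert, Finset.mem_singleton, Prod.ext_iff]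
        omega
      rw [if_neg (by omega : ¬ p.2 ≤ 2 * Y.d), mul_zero]
  rw [hsum, hζ _ (by omega), hβ _ (by omega), hβ _ (by omega), hβ _ (by omega), f0, f1, f2] at hk
  -- dividing by the power of `q`
  have hq := qq_pos v
  have hreal : qq v ^ (((2 * m : ℕ) : ℝ) / 2) * nt Z (2 * m) v =
      qq v ^ (((2 * m : ℕ) : ℝ) / 2) * nt X (2 * m) v +
      qq v ^ (((2 * m - 1 : ℕ) : ℝ) / 2) * nt X (2 * m - 1) v *
        (qq v ^ (((1 : ℕ) : ℝ) / 2) * nt Y 1 v) +
      qq v ^ (((2 * m - 2 : ℕ) : ℝ) / 2) * nt X (2 * m - 2) v * qq v := by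
    have : ((qq v ^ (((2 * m : ℕ) : ℝ) / 2) * nt Z (2 * m) v : ℝ) : ℂ) =
      ((qq v ^ (((2 * m : ℕ) : ℝ) / 2) * nt X (2 * m) v +
      qq v ^ (((2 * m - 1 : ℕ) : ℝ) / 2) * nt X (2 * m - 1) v *
        (qq v ^ (((1 : ℕ) : ℝ) / 2) * nt Y 1 v) +
      qq v ^ (((2 * m - 2 : ℕ) : ℝ) / 2) * nt X (2 * m - 2) v * qq v : ℝ) : ℂ) := by
      rw [hk]
      push_cast
      ring
    exact Complex.ofReal_injective this
  have e1 : qq v ^ (((2 * m - 1 : ℕ) : ℝ) / 2) * qq v ^ (((1 : ℕ) : ℝ) / 2) =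
      qq v ^ (((2 * m : ℕ) : ℝ) / 2) := by
    rw [← Real.rpow_add hq]
    congr 1
    rw [Nat.cast_sub (by omega)]
    push_cast
    ring
  have e2 : qq v ^ (((2 * m - 2 : ℕ) : ℝ) / 2) * qq v = qq v ^ (((2 * m : ℕ) : ℝ) / 2) := by
    nth_rewrite 2 [← Real.rpow_one (qq v)]
    rw [← Real.rpow_add hq]
    congr 1
    rw [Nat.cast_sub (by omega)]
    push_cast
    ring
  have e3 : qq v ^ (((2 * m : ℕ) : ℝ) / 2) * nt Z (2 * m) v =
      qq v ^ (((2 * m : ℕ) : ℝ) / 2) *
        (nt X (2 * m) v + nt X (2 * m - 1) v * nt Y 1 v + nt X (2 * m - 2) v) := by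
    rw [hreal]
    linear_combination (nt X (2 * m - 1) v * nt Y 1 v) * e1 + nt X (2 * m - 2) v * e2
  exact mul_left_cancel₀ (Real.rpow_pos_of_pos hq _).ne' e3

end

end Pool.Agent.R461.AP
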