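import Pool.Agent.R461.AP.Kun
import Pool.Agent.R461.ZF.Main
import Pool.Agent.R461.UT.Main

/-! Bessel's inequality for the poles of the `L`-functions of the products with the curves of a family. -/

set_option autoImplicit false

namespace Pool.Agent.R461.AP

open Complex Filter Topology ComplexConjugate NumberField IsDedekindDomain Asymptotics
  Pool.Agent.W401.Cheb Pool.Agent.W540.BE Pool.Agent.W353.L1 Polynomial
open Pool.Agent.H341R2 (lam lam_tendsto)
open Pool.Agent.W353.EF (IsFrobenius cone LFun)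
open Pool.Agent.W353.EH (edgePoint size)
open Pool.Agent.R461.UR (Coh Mot IsL weight l_sz loc loc_mot zz_zero)
open Pool.Agent.R461.ZF (PairingSize pairingSize_lim bessel_edge)
open Pool.Agent.R461.UT (PoleOrder size_of_pole)
open Pool.Agent.R461.TB (qq qq_pos trace_gen)
open Pool.Agent.Y139.SM (EP_cofinite)

section
variable {K : Type} [Field K] [NumberField K]

theorem abs_nt (V : Variety K) (i : ℕ) (v : HeightOneSpectrum (𝓞 K)) : |nt V i v| ≤ V.N i :=
  abs_tr_le _ _ _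

variable {β : Type} {X : Variety K} {m : ℕ} {Y : β → Variety K} {n : β →₀ ℕ}
  {R' : Finset (HeightOneSpectrum (𝓞 K))}

/-- the trace on the copies of the `H¹(Y b)` -/
noncomputable def comb (Y : β → Variety K) (n : β →₀ ℕ) (v : HeightOneSpectrum (𝓞 K)) : ℝ :=
  ∑ b ∈ n.support, (n b : ℝ) * nt (Y b) 1 v

theorem rest_bound (hm : 1 ≤ m) (hmd : m ≤ X.d) (hY : ∀ b, (Y b).d = 1)
    (h : Contains X m Y n R') {v : HeightOneSpectrum (𝓞 K)} (hv : v ∉ R') :
    |nt X (2 * m - 1) v - comb Y n v| ≤ rest X m Y n := by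
  classical
  obtain ⟨α, γ, hα, hγ, hle⟩ := h v hv
  obtain ⟨C, hC⟩ := Multiset.le_iff_exists_add.1 hle
  have hq := qq_pos v
  have hs : (∑ j, α j) = (∑ b ∈ n.support, (n b : ℂ) *
      ((Ideal.absNorm v.asIdeal : ℂ) ^ (m - 1) * ∑ j, γ b j)) + C.sum := by
    have h1 := congrArg Multiset.sum hC
    rw [Multiset.sum_add] at h1
    have h2 : (∑ b ∈ n.support, n b • Finset.univ.val.map
        (fun j => (Ideal.absNorm v.asIdeal : ℂ) ^ (m - 1) * γ b j)).sum =
        ∑ b ∈ n.support, (n b : ℂ) *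
          ((Ideal.absNorm v.asIdeal : ℂ) ^ (m - 1) * ∑ j, γ b j) := by
      rw [Multiset.sum_sum]
      refine Finset.sum_congr rfl fun b _ => ?_
      rw [Multiset.sum_nsmul, nsmul_eq_mul, Finset.mul_sum]
      rfl
    rw [h2] at h1
    exact h1
  have hcard : (C.card : ℝ) = rest X m Y n := by
    have h1 := congrArg Multiset.card hC
    rw [Multiset.card_add, Multiset.card_map, Multiset.card_sum] at h1
    simp only [Multiset.card_nsmul, Multiset.card_map] at h1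
    have h2 : ∀ m : ℕ, (Finset.univ : Finset (Fin m)).val.card = m := by
      intro m
      have : (Finset.univ : Finset (Fin m)).card = m := by simp
      exact this
    simp only [h2] at h1
    unfold rest
    rw [h1]
    push_cast
    ring
  have hnorm : ‖C.sum‖ ≤ rest X m Y n * qq v ^ (((2 * m - 1 : ℕ) : ℝ) / 2) := by
    obtain ⟨β', hβ⟩ := hα
    have h1 : ∀ z ∈ C, ‖z‖ = qq v ^ (((2 * m - 1 : ℕ) : ℝ) / 2) := by
      intro z hz
      have h2 : z ∈ Finset.univ.val.map α := by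
        rw [hC]
        exact Multiset.mem_add.2 (Or.inr hz)
      rw [← hβ.1] at h2
      exact hβ.2.1 (2 * m - 1) z h2
    refine (norm_multiset_sum_le C).trans ?_
    have h4 : (C.map fun z => ‖z‖).sum = C.card • qq v ^ (((2 * m - 1 : ℕ) : ℝ) / 2) := by
      rw [Multiset.map_congr rfl h1, Multiset.map_const', Multiset.sum_replicate]
    rw [h4, nsmul_eq_mul, hcard]
  have e1 := trace_gen (by omega) hα
  have e2 : ∀ b ∈ n.support, (∑ j, γ b j) =
      ((qq v ^ (((1 : ℕ) : ℝ) / 2) * nt (Y b) 1 v : ℝ) : ℂ) := fun b hb =>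
    trace_gen (by rw [hY b]; norm_num) (hγ b hb)
  have e0 : qq v ^ (m - 1) * qq v ^ (((1 : ℕ) : ℝ) / 2) = qq v ^ (((2 * m - 1 : ℕ) : ℝ) / 2) := by
    rw [← Real.rpow_natCast, ← Real.rpow_add hq]
    congr 1
    rw [Nat.cast_sub (by omega), Nat.cast_sub (by omega)]
    push_cast
    ring
  have e3 : C.sum = ((qq v ^ (((2 * m - 1 : ℕ) : ℝ) / 2) *
      (nt X (2 * m - 1) v - comb Y n v) : ℝ) : ℂ) := by
    have h5 : C.sum = (∑ j, α j) - ∑ b ∈ n.support, (n b : ℂ) *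
        ((Ideal.absNorm v.asIdeal : ℂ) ^ (m - 1) * ∑ j, γ b j) := by
      rw [hs]
      ring
    have h6 : ∑ b ∈ n.support, (n b : ℂ) * ((Ideal.absNorm v.asIdeal : ℂ) ^ (m - 1) *
        ∑ j, γ b j) = ((qq v ^ (((2 * m - 1 : ℕ) : ℝ) / 2) * comb Y n v : ℝ) : ℂ) := by
      unfold comb
      rw [Finset.mul_sum, Complex.ofReal_sum]
      refine Finset.sum_congr rfl fun b hb => ?_
      rw [e2 b hb, ← e0]
      have h7 : (Ideal.absNorm v.asIdeal : ℂ) = ((qq v : ℝ) : ℂ) := by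
        unfold qq
        push_cast
        rfl
      rw [h7]
      push_cast
      ring
    rw [h5, h6, e1, ← Complex.ofReal_sub, ← mul_sub]
    rfl
  rw [e3, Complex.norm_real, Real.norm_eq_abs, abs_mul,
    abs_of_pos (Real.rpow_pos_of_pos hq _), mul_comm] at hnorm
  exact le_of_mul_le_mul_right hnorm (Real.rpow_pos_of_pos hq _)

open Classical in
/-- the trace on the complement -/
noncomputable def ww (X : Variety K) (m : ℕ) (Y : β → Variety K) (n : β →₀ ℕ)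
    (R' : Finset (HeightOneSpectrum (𝓞 K))) (v : HeightOneSpectrum (𝓞 K)) : ℝ :=
  if v ∈ R' then 0 else nt X (2 * m - 1) v - comb Y n v

theorem abs_comb (Y : β → Variety K) (n : β →₀ ℕ) (v : HeightOneSpectrum (𝓞 K)) :
    |comb Y n v| ≤ ∑ b ∈ n.support, (n b : ℝ) * (Y b).N 1 := by
  unfold comb
  refine (Finset.abs_sum_le_sum_abs _ _).trans (Finset.sum_le_sum fun b _ => ?_)
  rw [abs_mul, abs_of_nonneg (Nat.cast_nonneg _)]
  exact mul_le_mul_of_nonneg_left (abs_nt _ _ _) (Nat.cast_nonneg _)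

theorem abs_ww (hm : 1 ≤ m) (hmd : m ≤ X.d) (hY : ∀ b, (Y b).d = 1)
    (h : Contains X m Y n R') (v : HeightOneSpectrum (𝓞 K)) :
    |ww X m Y n R' v| ≤ |rest X m Y n| := by
  unfold ww
  split_ifs with hv
  · rw [abs_zero]
    exact abs_nonneg _
  · exact (rest_bound hm hmd hY h hv).trans (le_abs_self _)

/-- products of bounded functions -/
theorem abs_mul_le {a b A B : ℝ} (ha : |a| ≤ A) (hb : |b| ≤ B) : |a * b| ≤ A * B := by
  rw [abs_mul]
  exact mul_le_mul ha hb (abs_nonneg _) ((abs_nonneg _).trans ha)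

variable {σ : HeightOneSpectrum (𝓞 K) → GK K} (hσ : ∀ v, IsFrob v (σ v))

include hσ

theorem pole_sz (V : Variety K) {i : ℕ} (hi : i ≤ 2 * V.d)
    {B : HeightOneSpectrum (𝓞 K) → ℂ[X]} (h : IsL (V.coh i hi).mot 0 B) :
    Tendsto (fun ε : ℝ => (EP (nm K) ε fun v => nt V i v) / lam ε - poleSize V i hi B ε)
      (𝓝[>] 0) (𝓝 0) := by
  have h1 := (l_sz hσ h).2
  refine h1.congr fun ε => ?_
  have e : (fun v => (loc (V.coh i hi).mot σ v * zz 0 v).re) = fun v => nt V i v := by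
    funext v
    rw [zz_zero, mul_one, loc_mot, Complex.ofReal_re]
    rfl
  rw [e]
  rfl

theorem pair_lim {V W : Variety K} {i j : ℕ} {hi : i ≤ 2 * V.d} {hj : j ≤ 2 * W.d} {x : ℝ}
    (h : PairingSize (V.coh i hi).mot (W.coh j hj).mot 0 x) :
    Tendsto (fun ε : ℝ => (EP (nm K) ε fun v => nt V i v * nt W j v) / lam ε)
      (𝓝[>] 0) (𝓝 x) := by
  refine (pairingSize_lim hσ h).congr fun ε => ?_
  have e : (fun v => (loc (V.coh i hi).mot σ v * conj (loc (W.coh j hj).mot σ v) *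
      zz 0 v).re) = fun v => nt V i v * nt W j v := by
    funext v
    rw [zz_zero, mul_one, loc_mot, loc_mot, Complex.conj_ofReal, ← Complex.ofReal_mul,
      Complex.ofReal_re]
    rfl
  rw [e]

/-- the excess is the mean value of the product of the traces -/
theorem excess_sz {Z W : Variety K} (h : IsProduct Z X W) (hW : IsCurve W) (hm : 1 ≤ m)
    (hmd : m ≤ X.d) (h1 : 2 * m ≤ 2 * Z.d) (h2 : 2 * m ≤ 2 * X.d) (h3 : 2 * m - 2 ≤ 2 * X.d)
    {BZ BX BX' : HeightOneSpectrum (𝓞 K) → ℂ[X]} (hBZ : IsL (Z.coh (2 * m) h1).mot 0 BZ)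
    (hBX : IsL (X.coh (2 * m) h2).mot 0 BX) (hBX' : IsL (X.coh (2 * m - 2) h3).mot 0 BX') :
    Tendsto (fun ε : ℝ => (EP (nm K) ε fun v => nt X (2 * m - 1) v * nt W 1 v) / lam ε -
      (poleSize Z (2 * m) h1 BZ ε - poleSize X (2 * m) h2 BX ε -
        poleSize X (2 * m - 2) h3 BX' ε)) (𝓝[>] 0) (𝓝 0) := by
  classical
  have s1 := pole_sz hσ Z h1 hBZ
  have s2 := pole_sz hσ X h2 hBX
  have s3 := pole_sz hσ X h3 hBX'
  have s4 := EP_cofinite (K := K) (φ := fun v => nt Z (2 * m) v)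
    (ψ := fun v => (nt X (2 * m) v + nt X (2 * m - 1) v * nt W 1 v) + nt X (2 * m - 2) v)
    (abs_nt Z (2 * m)) (C := (X.N (2 * m) : ℝ) + X.N (2 * m - 1) * W.N 1 + X.N (2 * m - 2))
    (fun v => (abs_add_le _ _).trans (add_le_add ((abs_add_le _ _).trans (add_le_add
      (abs_nt _ _ _) (abs_mul_le (abs_nt _ _ _) (abs_nt _ _ _)))) (abs_nt _ _ _)))
    (by
      rw [Filter.eventually_cofinite]
      refine (Z.R ∪ X.R ∪ W.R).finite_toSet.subset fun v hv => ?_
      by_contra hcon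
      have hcon' : v ∉ Z.R ∪ X.R ∪ W.R := hcon
      simp only [Finset.mem_union, not_or] at hcon'
      exact hv (kunneth_curve h hW hm hmd hcon'.1.1 hcon'.1.2 hcon'.2))
  have s5 : ∀ᶠ ε : ℝ in 𝓝[>] 0, (EP (nm K) ε fun v =>
      (nt X (2 * m) v + nt X (2 * m - 1) v * nt W 1 v) + nt X (2 * m - 2) v) =
      (EP (nm K) ε fun v => nt X (2 * m) v) +
      (EP (nm K) ε fun v => nt X (2 * m - 1) v * nt W 1 v) +
      EP (nm K) ε fun v => nt X (2 * m - 2) v := by
    filter_upwards [self_mem_nhdsWithin] with ε hε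
    have hε : (0 : ℝ) < ε := hε
    rw [EP_add normSys hε (B := (X.N (2 * m) : ℝ) + X.N (2 * m - 1) * W.N 1)
      (B' := (X.N (2 * m - 2) : ℝ))
      (fun v => (abs_add_le _ _).trans (add_le_add (abs_nt _ _ _)
        (abs_mul_le (abs_nt _ _ _) (abs_nt _ _ _)))) (fun v => abs_nt _ _ _),
      EP_add normSys hε (fun v => abs_nt X (2 * m) v) (fun v =>
        abs_mul_le (abs_nt X (2 * m - 1) v) (abs_nt W 1 v))]
  have s6 := ((s1.sub s2).sub s3).sub s4
  simp only [sub_zero] at s6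
  refine s6.congr' ?_
  filter_upwards [s5] with ε g
  rw [g]
  ring

variable {e : β → ℕ} {Z : β → Variety K}

/-- **Bessel's inequality for the defects.** -/
theorem main (hfam : IsCurveFamily Y e) (hm : 1 ≤ m) (hmd : m ≤ X.d) (h : Contains X m Y n R')
    (hZ : ∀ b, IsProduct (Z b) X (Y b)) (S : Finset β) (h1 : ∀ b, 2 * m ≤ 2 * (Z b).d)
    (h2 : 2 * m ≤ 2 * X.d) (h3 : 2 * m - 2 ≤ 2 * X.d)
    {BZ : β → HeightOneSpectrum (𝓞 K) → ℂ[X]} {BX BX' : HeightOneSpectrum (𝓞 K) → ℂ[X]}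
    (hBZ : ∀ b ∈ S, IsL ((Z b).coh (2 * m) (h1 b)).mot 0 (BZ b))
    (hBX : IsL (X.coh (2 * m) h2).mot 0 BX) (hBX' : IsL (X.coh (2 * m - 2) h3).mot 0 BX')
    {η : ℝ} (hη : 0 < η) :
    ∀ᶠ ε : ℝ in 𝓝[>] 0, ∑ b ∈ S, (poleSize (Z b) (2 * m) (h1 b) (BZ b) ε -
      poleSize X (2 * m) h2 BX ε - poleSize X (2 * m - 2) h3 BX' ε - n b * e b) ^ 2 / e b ≤
      rest X m Y n ^ 2 + η := by
  classical
  obtain ⟨h0, hcurve, hdiag, hoff⟩ := hfam
  have hYd : ∀ b, (Y b).d = 1 := fun b => (hcurve b).1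
  have he : ∀ b, (0 : ℝ) < e b := fun b => by exact_mod_cast (hdiag b).1
  -- the mean values with the trace on the complement
  have hcorr : ∀ b ∈ S, Tendsto (fun ε : ℝ => (EP (nm K) ε fun v =>
      ((ww X m Y n R' v : ℂ) * conj ((nt (Y b) 1 v : ℝ) : ℂ)).re) / lam ε -
      (poleSize (Z b) (2 * m) (h1 b) (BZ b) ε - poleSize X (2 * m) h2 BX ε -
        poleSize X (2 * m - 2) h3 BX' ε - n b * e b)) (𝓝[>] 0) (𝓝 0) := by
    intro b hb
    have t1 := excess_sz hσ (hZ b) (hcurve b) hm hmd (h1 b) h2 h3 (hBZ b hb) hBX hBX'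
    have t2 := EP_cofinite (K := K)
      (φ := fun v => ((ww X m Y n R' v : ℂ) * conj ((nt (Y b) 1 v : ℝ) : ℂ)).re)
      (ψ := fun v => nt X (2 * m - 1) v * nt (Y b) 1 v +
        ∑ b' ∈ n.support, (-(n b' : ℝ)) * (nt (Y b') 1 v * nt (Y b) 1 v))
      (B := |rest X m Y n| * (Y b).N 1)
      (C := (X.N (2 * m - 1) : ℝ) * (Y b).N 1 +
        ∑ b' ∈ n.support, (n b' : ℝ) * ((Y b').N 1 * (Y b).N 1))
      (fun v => by
        rw [Complex.conj_ofReal, ← Complex.ofReal_mul, Complex.ofReal_re]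
        exact abs_mul_le (abs_ww hm hmd hYd h v) (abs_nt _ _ _))
      (fun v => by
        refine (abs_add_le _ _).trans (add_le_add (abs_mul_le (abs_nt _ _ _) (abs_nt _ _ _)) ?_)
        refine (Finset.abs_sum_le_sum_abs _ _).trans (Finset.sum_le_sum fun b' _ => ?_)
        rw [abs_mul, abs_neg, abs_of_nonneg (Nat.cast_nonneg _)]
        exact mul_le_mul_of_nonneg_left (abs_mul_le (abs_nt _ _ _) (abs_nt _ _ _))
          (Nat.cast_nonneg _))
      (by
        rw [Filter.eventually_cofinite]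
        refine R'.finite_toSet.subset fun v hv => ?_
        by_contra hcon
        refine hv ?_
        rw [Complex.conj_ofReal, ← Complex.ofReal_mul, Complex.ofReal_re]
        unfold ww comb
        rw [if_neg (show v ∉ R' from hcon), sub_mul, Finset.sum_mul, sub_eq_add_neg, ← Finset.sum_neg_distrib]
        congr 1
        exact Finset.sum_congr rfl fun b' _ => by ring)
    have t3 : ∀ᶠ ε : ℝ in 𝓝[>] 0, (EP (nm K) ε fun v => nt X (2 * m - 1) v * nt (Y b) 1 v +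
        ∑ b' ∈ n.support, (-(n b' : ℝ)) * (nt (Y b') 1 v * nt (Y b) 1 v)) =
        (EP (nm K) ε fun v => nt X (2 * m - 1) v * nt (Y b) 1 v) +
        ∑ b' ∈ n.support, (-(n b' : ℝ)) * EP (nm K) ε fun v => nt (Y b') 1 v * nt (Y b) 1 v := by
      filter_upwards [self_mem_nhdsWithin] with ε hε
      have hε : (0 : ℝ) < ε := hε
      have hb1 : ∀ b' v, |(-(n b' : ℝ)) * (nt (Y b') 1 v * nt (Y b) 1 v)| ≤
          (n b' : ℝ) * ((Y b').N 1 * (Y b).N 1) := by
        intro b' v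
        rw [abs_mul, abs_neg, abs_of_nonneg (Nat.cast_nonneg _)]
        exact mul_le_mul_of_nonneg_left (abs_mul_le (abs_nt _ _ _) (abs_nt _ _ _))
          (Nat.cast_nonneg _)
      rw [EP_add normSys hε (fun v => abs_mul_le (abs_nt X (2 * m - 1) v) (abs_nt (Y b) 1 v))
        (B' := ∑ b' ∈ n.support, (n b' : ℝ) * ((Y b').N 1 * (Y b).N 1))
        (fun v => (Finset.abs_sum_le_sum_abs _ _).trans (Finset.sum_le_sum fun b' _ => hb1 b' v)),
        EP_sum normSys hε n.support _ (fun b' => (n b' : ℝ) * ((Y b').N 1 * (Y b).N 1))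
          (fun b' _ v => hb1 b' v)]
      congr 1
      exact Finset.sum_congr rfl fun b' _ => EP_const_mul _ _
    have t4 : Tendsto (fun ε : ℝ => ∑ b' ∈ n.support, (-(n b' : ℝ)) *
        ((EP (nm K) ε fun v => nt (Y b') 1 v * nt (Y b) 1 v) / lam ε)) (𝓝[>] 0)
        (𝓝 (-((n b : ℝ) * e b))) := by
      have t5 : Tendsto (fun ε : ℝ => ∑ b' ∈ n.support, (-(n b' : ℝ)) *
          ((EP (nm K) ε fun v => nt (Y b') 1 v * nt (Y b) 1 v) / lam ε)) (𝓝[>] 0)
          (𝓝 (∑ b' ∈ n.support, (-(n b' : ℝ)) * (if b' = b then (e b : ℝ) else 0))) := by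
        refine tendsto_finsetSum _ fun b' _ => ?_
        by_cases hbb : b' = b
        · subst hbb
          rw [if_pos rfl]
          exact (pair_lim hσ (hdiag b').2).const_mul _
        · rw [if_neg hbb]
          exact (pair_lim hσ (hoff b' b hbb)).const_mul _
      have t6 : ∑ b' ∈ n.support, (-(n b' : ℝ)) * (if b' = b then (e b : ℝ) else 0) =
          -((n b : ℝ) * e b) := by
        by_cases hb : b ∈ n.support
        · rw [Finset.sum_eq_single_of_mem b hb]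
          · rw [if_pos rfl]
            ring
          · intro b' _ hb'
            rw [if_neg hb', mul_zero]
        · rw [Finset.sum_eq_zero]
          · have : n b = 0 := by simpa using hb
            rw [this, Nat.cast_zero, zero_mul, neg_zero]
          · intro b' hb'
            have : b' ≠ b := fun h => hb (h ▸ hb')
            rw [if_neg this, mul_zero]
      rw [t6] at t5
      exact t5
    have t7 := (t2.add t1).add (t4.add_const ((n b : ℝ) * e b))
    simp only [neg_add_cancel, add_zero] at t7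
    refine t7.congr' ?_
    filter_upwards [t3] with ε g
    rw [g, add_div, Finset.sum_div]
    have g2 : ∑ b' ∈ n.support, (-(n b' : ℝ)) *
        (EP (nm K) ε fun v => nt (Y b') 1 v * nt (Y b) 1 v) / lam ε =
        ∑ b' ∈ n.support, (-(n b' : ℝ)) *
        ((EP (nm K) ε fun v => nt (Y b') 1 v * nt (Y b) 1 v) / lam ε) :=
      Finset.sum_congr rfl fun b' _ => mul_div_assoc _ _ _
    rw [g2]
    ring
  have hgram : ∀ b b' : β, (fun v => (((nt (Y b) 1 v : ℝ) : ℂ) *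
      conj ((nt (Y b') 1 v : ℝ) : ℂ)).re) = fun v => nt (Y b) 1 v * nt (Y b') 1 v := by
    intro b b'
    funext v
    rw [Complex.conj_ofReal, ← Complex.ofReal_mul, Complex.ofReal_re]
  have hbes := bessel_edge (K := K) S (t := fun v => (ww X m Y n R' v : ℂ))
    (u := fun b v => ((nt (Y b) 1 v : ℝ) : ℂ)) (b := |rest X m Y n|) (abs_nonneg _)
    (fun v => by
      rw [Complex.norm_real, Real.norm_eq_abs]
      exact abs_ww hm hmd hYd h v) (B := fun b => ((Y b).N 1 : ℝ))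
    (fun b => Nat.cast_nonneg _) (fun b v => by
      rw [Complex.norm_real, Real.norm_eq_abs]
      exact abs_nt _ _ _) (e := fun b => (e b : ℝ)) he
    (fun b _ b' _ hbb => by
      rw [hgram]
      exact pair_lim hσ (hoff b b' hbb))
    (fun b _ => by
      rw [hgram]
      exact pair_lim hσ (hdiag b).2) hcorr (show 0 < η / 2 by positivity)
  have hone : Tendsto (fun ε : ℝ => rest X m Y n ^ 2 * ((EP (nm K) ε fun _ => 1) / lam ε))
      (𝓝[>] 0) (𝓝 (rest X m Y n ^ 2)) := by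
    have := (EP_one K).const_mul (rest X m Y n ^ 2)
    rwa [mul_one] at this
  filter_upwards [hbes, hone.eventually_le_const (show rest X m Y n ^ 2 <
    rest X m Y n ^ 2 + η / 2 by linarith), self_mem_nhdsWithin,
    lam_tendsto.eventually_gt_atTop 0] with ε g1 g2 hε hl
  have hε : (0 : ℝ) < ε := hε
  have g3 : (EP (nm K) ε fun v => ‖(ww X m Y n R' v : ℂ)‖ ^ 2) / lam ε ≤
      rest X m Y n ^ 2 * ((EP (nm K) ε fun _ => 1) / lam ε) := by
    rw [← mul_div_assoc]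
    refine div_le_div_of_nonneg_right ?_ hl.le
    have hb : ∀ v, ‖(ww X m Y n R' v : ℂ)‖ ^ 2 ≤ rest X m Y n ^ 2 := fun v => by
      rw [Complex.norm_real, Real.norm_eq_abs, ← sq_abs (rest X m Y n)]
      exact pow_le_pow_left₀ (abs_nonneg _) (abs_ww hm hmd hYd h v) 2
    refine EP_le (B := rest X m Y n ^ 2) normSys hε (fun v => ?_) hb
    rw [abs_of_nonneg (sq_nonneg _)]
    exact hb v
  linarith

/-- **The orders of the poles.** -/
theorem poles (hfam : IsCurveFamily Y e) (hm : 1 ≤ m) (hmd : m ≤ X.d)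
    (h : Contains X m Y n R') (hZ : ∀ b, IsProduct (Z b) X (Y b)) (S : Finset β)
    (h1 : ∀ b, 2 * m ≤ 2 * (Z b).d) (h2 : 2 * m ≤ 2 * X.d) (h3 : 2 * m - 2 ≤ 2 * X.d)
    {r : β → ℤ} {r₁ r₂ : ℤ} (hr : ∀ b ∈ S, HasPole (Z b) (2 * m) (h1 b) (r b))
    (hr₁ : HasPole X (2 * m) h2 r₁) (hr₂ : HasPole X (2 * m - 2) h3 r₂) :
    ∑ b ∈ S, ((r b : ℝ) - r₁ - r₂ - n b * e b) ^ 2 / e b ≤ rest X m Y n ^ 2 := by
  classical
  have hex : ∀ b, ∃ B : HeightOneSpectrum (𝓞 K) → ℂ[X], b ∈ S →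
      IsL ((Z b).coh (2 * m) (h1 b)).mot 0 B ∧
      PoleOrder (weight ((Z b).coh (2 * m) (h1 b)).mot.H) 0 B (r b) := by
    intro b
    by_cases hb : b ∈ S
    · obtain ⟨B, g1, g2⟩ := hr b hb
      exact ⟨B, fun _ => ⟨g1, g2⟩⟩
    · exact ⟨fun _ => 0, fun h => absurd h hb⟩
  choose BZ hBZ using hex
  obtain ⟨BX, hBX, hp1⟩ := hr₁
  obtain ⟨BX', hBX', hp2⟩ := hr₂
  have t1 : Tendsto (poleSize X (2 * m) h2 BX) (𝓝[>] 0) (𝓝 (r₁ : ℝ)) := size_of_pole hp1
  have t2 : Tendsto (poleSize X (2 * m - 2) h3 BX') (𝓝[>] 0) (𝓝 (r₂ : ℝ)) := size_of_pole hp2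
  have t3 : ∀ b ∈ S, Tendsto (poleSize (Z b) (2 * m) (h1 b) (BZ b)) (𝓝[>] 0) (𝓝 (r b : ℝ)) :=
    fun b hb => size_of_pole (hBZ b hb).2
  refine le_of_forall_pos_le_add fun η hη => ?_
  refine le_of_tendsto (tendsto_finsetSum S fun b hb =>
    (((((t3 b hb).sub t1).sub t2).sub_const (n b * e b : ℝ)).pow 2).div_const (e b : ℝ)) ?_
  exact main hσ hfam hm hmd h hZ S h1 h2 h3 (fun b hb => (hBZ b hb).1) hBX hBX' hη

/-- the number of the exceptions -/
theorem exceptions (hfam : IsCurveFamily Y e) (hm : 1 ≤ m) (hmd : m ≤ X.d)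
    (h : Contains X m Y n R') (hZ : ∀ b, IsProduct (Z b) X (Y b))
    (h1 : ∀ b, 2 * m ≤ 2 * (Z b).d) (h2 : 2 * m ≤ 2 * X.d) (h3 : 2 * m - 2 ≤ 2 * X.d)
    {r₁ r₂ : ℤ} (hr₁ : HasPole X (2 * m) h2 r₁) (hr₂ : HasPole X (2 * m - 2) h3 r₂) (E : ℕ) :
    {b : β | e b ≤ E ∧ ∃ r : ℤ, HasPole (Z b) (2 * m) (h1 b) r ∧
      r ≠ r₁ + r₂ + n b * e b}.Finite ∧
    ({b : β | e b ≤ E ∧ ∃ r : ℤ, HasPole (Z b) (2 * m) (h1 b) r ∧
      r ≠ r₁ + r₂ + n b * e b}.ncard : ℝ) ≤ E * rest X m Y n ^ 2 := by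
  classical
  set P : Set β := {b : β | e b ≤ E ∧ ∃ r : ℤ, HasPole (Z b) (2 * m) (h1 b) r ∧
      r ≠ r₁ + r₂ + n b * e b} with hP
  have he : ∀ b, (0 : ℝ) < e b := fun b => by
    obtain ⟨_, _, hdiag, _⟩ := hfam
    exact_mod_cast (hdiag b).1
  have hex : ∀ b, ∃ r : ℤ, b ∈ P → HasPole (Z b) (2 * m) (h1 b) r ∧
      r ≠ r₁ + r₂ + n b * e b := by
    intro b
    by_cases hb : b ∈ P
    · obtain ⟨-, r, g1, g2⟩ := hb
      exact ⟨r, fun _ => ⟨g1, g2⟩⟩
    · exact ⟨0, fun h => absurd h hb⟩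
  choose r hr using hex
  have key : ∀ T : Finset β, (T : Set β) ⊆ P → (T.card : ℝ) ≤ E * rest X m Y n ^ 2 := by
    intro T hT
    have g1 := poles hσ hfam hm hmd h hZ T h1 h2 h3 (r := r) (fun b hb => (hr b (hT hb)).1)
      hr₁ hr₂
    have g2 : ∀ b ∈ T, (1 : ℝ) ≤ E * (((r b : ℝ) - r₁ - r₂ - n b * e b) ^ 2 / e b) := by
      intro b hb
      have g3 := hT hb
      have g4 : (1 : ℝ) ≤ ((r b : ℝ) - r₁ - r₂ - n b * e b) ^ 2 := by
        have g5 : 1 ≤ |r b - (r₁ + r₂ + n b * e b)| :=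
          Int.one_le_abs (sub_ne_zero.2 (hr b g3).2)
        have g6 : (1 : ℝ) ≤ |(r b : ℝ) - (r₁ + r₂ + n b * e b)| := by exact_mod_cast g5
        have g7 : (r b : ℝ) - r₁ - r₂ - n b * e b = (r b : ℝ) - (r₁ + r₂ + n b * e b) := by ring
        rw [g7, ← sq_abs]
        exact one_le_pow₀ g6
      have g7 : (e b : ℝ) ≤ E := by exact_mod_cast g3.1
      rw [← mul_div_assoc, le_div_iff₀ (he b), one_mul]
      calc (e b : ℝ) ≤ E * 1 := by rw [mul_one]; exact g7
        _ ≤ E * ((r b : ℝ) - r₁ - r₂ - n b * e b) ^ 2 :=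
            mul_le_mul_of_nonneg_left g4 (Nat.cast_nonneg _)
    calc (T.card : ℝ) = ∑ _b ∈ T, (1 : ℝ) := by rw [Finset.sum_const, nsmul_eq_mul, mul_one]
      _ ≤ ∑ b ∈ T, E * (((r b : ℝ) - r₁ - r₂ - n b * e b) ^ 2 / e b) := Finset.sum_le_sum g2
      _ = E * ∑ b ∈ T, ((r b : ℝ) - r₁ - r₂ - n b * e b) ^ 2 / e b := by rw [Finset.mul_sum]
      _ ≤ E * rest X m Y n ^ 2 := mul_le_mul_of_nonneg_left g1 (Nat.cast_nonneg _)
  have hfin : P.Finite := by
    by_contra hinf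
    have hinf' : P.Infinite := hinf
    obtain ⟨k, hk⟩ := exists_nat_gt ((E : ℝ) * rest X m Y n ^ 2)
    obtain ⟨T, hT, hcard⟩ := hinf'.exists_subset_card_eq k
    have g1 := key T hT
    rw [hcard] at g1
    linarith
  refine ⟨hfin, ?_⟩
  have g1 := key hfin.toFinset (by rw [Set.Finite.coe_toFinset])
  rwa [← Set.ncard_eq_toFinset_card P hfin] at g1

end

end Pool.Agent.R461.AP
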